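import Mathlib

/-!
# MP_98b297_co : fold-transitive bigraphs need not be cut-percolating

We formalise bigraphs, cut-involutions, folds, cut-percolating sequences and the group
`Γ_fold(G)` literally as in the problem, and show that the disjoint union of two copies of
the point-line incidence graph of the Fano plane is edge-transitive under `Γ_fold(G)` but
has no cut-percolating sequence.
-/

namespace Pool.Agent.Results.MP_98b297_co.DisjointFanoPlanes

open Equiv

/-- A bigraph: a finite bipartite graph with a fixed bipartition `(V1, V2)`. -/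
structure Bigraph where
  V1 : Type
  V2 : Type
  fin1 : Finite V1
  fin2 : Finite V2
  E : V1 → V2 → Prop

namespace Bigraph

/-- The vertex set `V1 ⊔ V2`. -/
abbrev V (G : Bigraph) : Type := G.V1 ⊕ G.V2

/-- The underlying simple graph on `V1 ⊔ V2`. -/
def graph (G : Bigraph) : SimpleGraph G.V where
  Adj x y := (∃ v w, x = Sum.inl v ∧ y = Sum.inr w ∧ G.E v w) ∨
    (∃ v w, x = Sum.inr w ∧ y = Sum.inl v ∧ G.E v w)
  symm := ⟨by
    rintro x y (⟨v, w, rfl, rfl, h⟩ | ⟨v, w, rfl, rfl, h⟩)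
    · exact Or.inr ⟨v, w, rfl, rfl, h⟩
    · exact Or.inl ⟨v, w, rfl, rfl, h⟩⟩
  loopless := ⟨by
    rintro x (⟨v, w, rfl, h, _⟩ | ⟨v, w, rfl, h, _⟩) <;> cases h⟩

/-- The edge set, as a set of pairs in `V1 × V2`. -/
def edges (G : Bigraph) : Set (G.V1 × G.V2) := {e | G.E e.1 e.2}

/-- The automorphisms of `G` preserving `V1` and `V2`: pairs of permutations. -/
def Aut (G : Bigraph) : Subgroup (Perm G.V1 × Perm G.V2) where
  carrier := {φ | ∀ v w, G.E (φ.1 v) (φ.2 w) ↔ G.E v w}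
  mul_mem' := by
    intro a b ha hb v w
    simp only [Set.mem_ofPred_eq, Prod.fst_mul, Prod.snd_mul, Perm.coe_mul,
      Function.comp_apply] at *
    rw [ha, hb]
  one_mem' := by
    intro v w
    simp
  inv_mem' := by
    intro a ha v w
    simp only [Set.mem_ofPred_eq, Prod.fst_inv, Prod.snd_inv] at *
    rw [← ha (a.1⁻¹ v) (a.2⁻¹ w)]
    simp

/-- The action of a pair of permutations on vertices. -/
def act (G : Bigraph) (φ : Perm G.V1 × Perm G.V2) : G.V → G.V := Sum.map φ.1 φ.2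

/-- The set of fixed vertices of `φ`. -/
def Fix (G : Bigraph) (φ : Perm G.V1 × Perm G.V2) : Set G.V := {x | G.act φ x = x}

/-- A cut-involution: an automorphism `φ` of order two such that `G - Fix(φ)` is
disconnected (it is non-empty, since `φ ≠ 1`). -/
def IsCutInvolution (G : Bigraph) (φ : Perm G.V1 × Perm G.V2) : Prop :=
  φ ∈ G.Aut ∧ φ * φ = 1 ∧ φ ≠ 1 ∧ ¬ (G.graph.induce (G.Fix φ)ᶜ).Connected

/-- A fold `(φ, L)`: `φ` is a cut-involution, `G[L]` is a union of connected components of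
`G - Fix(φ)`, and `(L, Fix(φ), φ(L))` is a partition of `V(G)`. -/
def IsFold (G : Bigraph) (φ : Perm G.V1 × Perm G.V2) (L : Set G.V) : Prop :=
  G.IsCutInvolution φ ∧
  (∃ C : Set (G.graph.induce (G.Fix φ)ᶜ).ConnectedComponent,
    L = {x | ∃ h : x ∈ (G.Fix φ)ᶜ,
      (G.graph.induce (G.Fix φ)ᶜ).connectedComponentMk ⟨x, h⟩ ∈ C}) ∧
  Disjoint L (G.Fix φ) ∧ Disjoint (G.Fix φ) (G.act φ '' L) ∧ Disjoint L (G.act φ '' L) ∧
  L ∪ G.Fix φ ∪ G.act φ '' L = Set.univ

open Classical in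
/-- The preimage `φ_L⁻¹(F)` of a set `F` of edges under the left-folding map
(`φ_L(v) = v` for `v ∈ L`, `φ_L(v) = φ(v)` otherwise). -/
noncomputable def foldPre (G : Bigraph) (φ : Perm G.V1 × Perm G.V2) (L : Set G.V)
    (F : Set (G.V1 × G.V2)) : Set (G.V1 × G.V2) :=
  {e | e ∈ G.edges ∧
    (if Sum.inl e.1 ∈ L then e.1 else φ.1 e.1, if Sum.inr e.2 ∈ L then e.2 else φ.2 e.2) ∈ F}

/-- `G` is cut-percolating: there is a sequence `E_0, …, E_m ⊆ E(G)` with `|E_0| = 1`,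
`E_m = E(G)` and each `E_i` the fold-preimage of `E_{i-1}`. -/
def CutPercolating (G : Bigraph) : Prop :=
  ∃ (m : ℕ) (E : ℕ → Set (G.V1 × G.V2)),
    (∀ i ≤ m, E i ⊆ G.edges) ∧ (E 0).ncard = 1 ∧ E m = G.edges ∧
    ∀ i < m, ∃ φ L, G.IsFold φ L ∧ E (i + 1) = G.foldPre φ L (E i)

/-- `Γ_fold(G)`: the group generated by all cut-involutions that extend to a fold. -/
def foldGroup (G : Bigraph) : Subgroup (Perm G.V1 × Perm G.V2) :=
  Subgroup.closure {φ | ∃ L, G.IsFold φ L}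

/-- `G` has an edge and `Γ` acts transitively on its edges. -/
def EdgeTransitive (G : Bigraph) (Γ : Subgroup (Perm G.V1 × Perm G.V2)) : Prop :=
  G.edges.Nonempty ∧ ∀ e ∈ G.edges, ∀ e' ∈ G.edges, ∃ γ ∈ Γ, (γ.1 e.1, γ.2 e.2) = e'

end Bigraph

/-! ### The Fano plane -/

/-- Incidence in the Fano plane: the line `l` is `l + {1, 2, 4}` in `ZMod 7`. -/
def D (p l : ZMod 7) : Prop := p - l = 1 ∨ p - l = 2 ∨ p - l = 4

instance (p l : ZMod 7) : Decidable (D p l) := by unfold D; infer_instance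

lemma D_join : ∀ p q : ZMod 7, ∃ l, D p l ∧ D q l := by decide

lemma D_unique : ∀ p q l m : ZMod 7, D p l → D q l → D p m → D q m → p = q ∨ l = m := by
  decide

lemma D_point : ∀ l : ZMod 7, ∃ p, D p l := by decide

lemma D_lines : ∀ x m : ZMod 7, D x m → ∃ n n', n ≠ n' ∧ n ≠ m ∧ n' ≠ m ∧ D x n ∧ D x n' := by
  decide

lemma D_off : ∀ n m : ZMod 7, n ≠ m → ∃ y z, y ≠ z ∧ D y n ∧ D z n ∧ ¬ D y m ∧ ¬ D z m := by
  decide

lemma D_two : ∀ n : ZMod 7, ∃ y z, y ≠ z ∧ D y n ∧ D z n := by decide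

/-- Two disjoint copies of the incidence graph of the Fano plane. -/
abbrev G₀ : Bigraph where
  V1 := ZMod 7 × Bool
  V2 := ZMod 7 × Bool
  fin1 := inferInstance
  fin2 := inferInstance
  E v w := v.2 = w.2 ∧ D v.1 w.1

lemma closed_of_fold {φ : Perm G₀.V1 × Perm G₀.V2} {L : Set G₀.V} (h : G₀.IsFold φ L)
    {x y : G₀.V} (hx : x ∈ L) (hy : y ∉ G₀.Fix φ) (hxy : G₀.graph.Adj x y) : y ∈ L := by
  obtain ⟨C, hC⟩ := h.2.1
  rw [hC] at hx ⊢
  obtain ⟨hx1, hx2⟩ := hx
  refine ⟨hy, ?_⟩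
  have : (G₀.graph.induce (G₀.Fix φ)ᶜ).connectedComponentMk ⟨y, hy⟩ =
      (G₀.graph.induce (G₀.Fix φ)ᶜ).connectedComponentMk ⟨x, hx1⟩ := by
    apply SimpleGraph.ConnectedComponent.sound
    apply SimpleGraph.Adj.reachable
    simp only [SimpleGraph.comap_adj, Function.Embedding.subtype_apply]
    exact hxy.symm
  rw [this]
  exact hx2


section Fold

variable {φ : Perm G₀.V1 × Perm G₀.V2} {L : Set G₀.V}

lemma adj_iff (v : G₀.V1) (w : G₀.V2) :
    G₀.graph.Adj (Sum.inl v) (Sum.inr w) ↔ G₀.E v w := by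
  constructor
  · rintro (⟨a, b, h1, h2, h⟩ | ⟨a, b, h1, h2, h⟩)
    · cases h1; cases h2; exact h
    · cases h1
  · intro h
    exact Or.inl ⟨v, w, rfl, rfl, h⟩

lemma closed_lr (h : G₀.IsFold φ L) {v : G₀.V1} {w : G₀.V2} (hv : Sum.inl v ∈ L)
    (hw : φ.2 w ≠ w) (hvw : G₀.E v w) : Sum.inr w ∈ L := by
  refine closed_of_fold h hv ?_ ((adj_iff v w).2 hvw)
  intro hw'
  apply hw
  have : (Sum.inr (φ.2 w) : G₀.V) = Sum.inr w := hw'
  exact Sum.inr.inj this

lemma closed_rl (h : G₀.IsFold φ L) {v : G₀.V1} {w : G₀.V2} (hw : Sum.inr w ∈ L)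
    (hv : φ.1 v ≠ v) (hvw : G₀.E v w) : Sum.inl v ∈ L := by
  refine closed_of_fold h hw ?_ ((adj_iff v w).2 hvw).symm
  intro hv'
  apply hv
  have : (Sum.inl (φ.1 v) : G₀.V) = Sum.inl v := hv'
  exact Sum.inl.inj this

lemma aut (h : G₀.IsFold φ L) (v : G₀.V1) (w : G₀.V2) :
    G₀.E (φ.1 v) (φ.2 w) ↔ G₀.E v w := h.1.1 v w

lemma inv1 (h : G₀.IsFold φ L) (v : G₀.V1) : φ.1 (φ.1 v) = v := by
  have := h.1.2.1
  have h1 := congrArg Prod.fst this
  simp only [Prod.fst_mul, Prod.fst_one] at h1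
  have h2 := congrArg (fun f => f v) h1
  simpa using h2

lemma inv2 (h : G₀.IsFold φ L) (w : G₀.V2) : φ.2 (φ.2 w) = w := by
  have := h.1.2.1
  have h1 := congrArg Prod.snd this
  simp only [Prod.snd_mul, Prod.snd_one] at h1
  have h2 := congrArg (fun f => f w) h1
  simpa using h2

/-- a point of `L` is moved -/
lemma moved1 (h : G₀.IsFold φ L) {v : G₀.V1} (hv : Sum.inl v ∈ L) : φ.1 v ≠ v := by
  intro he
  refine Set.disjoint_left.1 h.2.2.1 hv ?_
  show (Sum.inl (φ.1 v) : G₀.V) = Sum.inl v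
  rw [he]

lemma moved2 (h : G₀.IsFold φ L) {w : G₀.V2} (hw : Sum.inr w ∈ L) : φ.2 w ≠ w := by
  intro he
  refine Set.disjoint_left.1 h.2.2.1 hw ?_
  show (Sum.inr (φ.2 w) : G₀.V) = Sum.inr w
  rw [he]

/-- if `v ∈ L` then `φ v ∉ L` -/
lemma image_not1 (h : G₀.IsFold φ L) {v : G₀.V1} (hv : Sum.inl v ∈ L) :
    Sum.inl (φ.1 v) ∉ L := by
  intro h'
  exact Set.disjoint_left.1 h.2.2.2.2.1 h' ⟨Sum.inl v, hv, rfl⟩

lemma image_not2 (h : G₀.IsFold φ L) {w : G₀.V2} (hw : Sum.inr w ∈ L) :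
    Sum.inr (φ.2 w) ∉ L := by
  intro h'
  exact Set.disjoint_left.1 h.2.2.2.2.1 h' ⟨Sum.inr w, hw, rfl⟩

/-- a moved vertex is in `L` or its image is in `L` -/
lemma cover1 (h : G₀.IsFold φ L) {v : G₀.V1} (hv : φ.1 v ≠ v) :
    Sum.inl v ∈ L ∨ Sum.inl (φ.1 v) ∈ L := by
  have hm : (Sum.inl v : G₀.V) ∈ L ∪ G₀.Fix φ ∪ G₀.act φ '' L := by
    rw [h.2.2.2.2.2]; trivial
  rcases hm with (hm | hm) | ⟨x, hx, hxv⟩
  · exact Or.inl hm
  · exfalso
    apply hv
    have : (Sum.inl (φ.1 v) : G₀.V) = Sum.inl v := hm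
    exact Sum.inl.inj this
  · right
    rcases x with x | x
    · have : (Sum.inl (φ.1 x) : G₀.V) = Sum.inl v := hxv
      have h2 := Sum.inl.inj this
      rw [← h2, inv1 h]
      exact hx
    · have : (Sum.inr (φ.2 x) : G₀.V) = Sum.inl v := hxv
      cases this

lemma cover2 (h : G₀.IsFold φ L) {w : G₀.V2} (hw : φ.2 w ≠ w) :
    Sum.inr w ∈ L ∨ Sum.inr (φ.2 w) ∈ L := by
  have hm : (Sum.inr w : G₀.V) ∈ L ∪ G₀.Fix φ ∪ G₀.act φ '' L := by
    rw [h.2.2.2.2.2]; trivial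
  rcases hm with (hm | hm) | ⟨x, hx, hxv⟩
  · exact Or.inl hm
  · exfalso
    apply hw
    have : (Sum.inr (φ.2 w) : G₀.V) = Sum.inr w := hm
    exact Sum.inr.inj this
  · right
    rcases x with x | x
    · have : (Sum.inl (φ.1 x) : G₀.V) = Sum.inr w := hxv
      cases this
    · have : (Sum.inr (φ.2 x) : G₀.V) = Sum.inr w := hxv
      have h2 := Sum.inr.inj this
      rw [← h2, inv2 h]
      exact hx

/-- a line joining a point of `L` with a point whose image is in `L` is fixed. -/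
lemma line_fixed (h : G₀.IsFold φ L) {v v' : G₀.V1} {w : G₀.V2} (hv : Sum.inl v ∈ L)
    (hv' : Sum.inl (φ.1 v') ∈ L) (h1 : G₀.E v w) (h2 : G₀.E v' w) : φ.2 w = w := by
  by_contra hw
  have hwL := closed_lr h hv hw h1
  have hm : φ.1 v' ≠ v' := by
    intro he
    have := moved1 h hv'
    rw [he] at this
    exact this he
  have hv'L := closed_rl h hwL hm h2
  exact image_not1 h hv'L hv'

/-- two different lines determine a point (in the same copy) -/
lemma point_fixed (h : G₀.IsFold φ L) {v : G₀.V1} {w w' : G₀.V2} (hne : w ≠ w')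
    (h1 : G₀.E v w) (h2 : G₀.E v w') (hw : φ.2 w = w) (hw' : φ.2 w' = w') : φ.1 v = v := by
  have e1 := (aut h v w).2 h1
  have e2 := (aut h v w').2 h2
  rw [hw] at e1
  rw [hw'] at e2
  obtain ⟨v1, a⟩ := v
  obtain ⟨w1, b⟩ := w
  obtain ⟨w2, c⟩ := w'
  obtain ⟨h1a, h1b⟩ := h1
  obtain ⟨h2a, h2b⟩ := h2
  simp only at h1a h2a h1b h2b
  subst h1a
  subst h2a
  obtain ⟨e1a, e1b⟩ := e1
  obtain ⟨e2a, e2b⟩ := e2
  rcases D_unique _ _ _ _ e1b h1b e2b h2b with h3 | h3
  · exact Prod.ext h3 e1a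
  · exact absurd (Prod.ext h3 rfl) hne

lemma linefix_of_points (h : G₀.IsFold φ L) {v v' : G₀.V1} {w : G₀.V2} (hne : v ≠ v')
    (h1 : G₀.E v w) (h2 : G₀.E v' w) (hv : φ.1 v = v) (hv' : φ.1 v' = v') : φ.2 w = w := by
  have e1 := (aut h v w).2 h1
  have e2 := (aut h v' w).2 h2
  rw [hv] at e1
  rw [hv'] at e2
  obtain ⟨v1, a⟩ := v
  obtain ⟨v2, b⟩ := v'
  obtain ⟨w1, c⟩ := w
  obtain ⟨h1a, h1b⟩ := h1
  obtain ⟨h2a, h2b⟩ := h2
  simp only at h1a h2a h1b h2b
  subst h1a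
  subst h2a
  obtain ⟨e1a, e1b⟩ := e1
  obtain ⟨e2a, e2b⟩ := e2
  rcases D_unique _ _ _ _ e1b e2b h1b h2b with h3 | h3
  · exact absurd (Prod.ext h3 rfl) hne
  · exact Prod.ext h3 e1a.symm

/-- In a fold, a point of `L` is moved to the other copy. -/
lemma other_copy (h : G₀.IsFold φ L) {v : G₀.V1} (hv : Sum.inl v ∈ L) :
    (φ.1 v).2 ≠ v.2 := by
  intro hc
  obtain ⟨x, a⟩ := v
  -- the line joining `v` and `φ v`
  obtain ⟨m, hm1, hm2⟩ := D_join x (φ.1 (x, a)).1
  have hvm : G₀.E (x, a) (m, a) := ⟨rfl, hm1⟩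
  have hφvm : G₀.E (φ.1 (x, a)) (m, a) := ⟨hc, hm2⟩
  have hmfix : φ.2 (m, a) = (m, a) :=
    line_fixed h hv (v' := φ.1 (x, a)) (by rw [inv1 h]; exact hv) hvm hφvm
  -- every point off the line is fixed
  have hoff : ∀ q : ZMod 7, ¬ D q m → φ.1 (q, a) = (q, a) := by
    intro q hq
    by_contra hqm
    -- a point r off m with φ r ∈ L
    have key : ∀ r : G₀.V1, r.2 = a → ¬ D r.1 m → Sum.inl (φ.1 r) ∈ L → False := by
      intro r hr2 hr hrL
      obtain ⟨l, hl1, hl2⟩ := D_join x r.1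
      have hl : φ.2 (l, a) = (l, a) :=
        line_fixed h hv hrL (w := (l, a)) ⟨rfl, hl1⟩ ⟨hr2, hl2⟩
      have hne : ((l, a) : G₀.V2) ≠ (m, a) := by
        intro he
        have : l = m := congrArg Prod.fst he
        rw [this] at hl2
        exact hr hl2
      have := point_fixed h (v := (x, a)) hne ⟨rfl, hl1⟩ ⟨rfl, hm1⟩ hl hmfix
      exact moved1 h hv this
    rcases cover1 h hqm with hL | hL
    · -- q ∈ L : use r = φ q
      apply key (φ.1 (q, a))
      · -- same copy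
        obtain ⟨l, hl1, hl2⟩ := D_join x q
        have hx1 := (aut h (x, a) (l, a)).2 ⟨rfl, hl1⟩
        have hx2 := (aut h (q, a) (l, a)).2 ⟨rfl, hl2⟩
        have e1 := hx1.1
        have e2 := hx2.1
        rw [e2, ← e1]
        exact hc
      · intro hD
        apply hq
        have hcopy : (φ.1 (q, a)).2 = a := by
          obtain ⟨l, hl1, hl2⟩ := D_join x q
          have hx1 := (aut h (x, a) (l, a)).2 ⟨rfl, hl1⟩
          have hx2 := (aut h (q, a) (l, a)).2 ⟨rfl, hl2⟩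
          have e1 := hx1.1
          have e2 := hx2.1
          rw [e2, ← e1]
          exact hc
        have hE : G₀.E (φ.1 (q, a)) (φ.2 (m, a)) := by
          rw [hmfix]
          exact ⟨hcopy, hD⟩
        exact ((aut h (q, a) (m, a)).1 hE).2
      · rw [inv1 h]
        exact hL
    · exact key (q, a) rfl hq hL
  -- `x` lies on two further lines, which are fixed
  obtain ⟨n, n', hnn', hn, hn', hxn, hxn'⟩ := D_lines x m hm1
  have hfix : ∀ n : ZMod 7, n ≠ m → φ.2 (n, a) = (n, a) := by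
    intro n hn
    obtain ⟨y, z, hyz, hy, hz, hy', hz'⟩ := D_off n m hn
    exact linefix_of_points h (v := (y, a)) (v' := (z, a)) (by simpa using hyz)
      ⟨rfl, hy⟩ ⟨rfl, hz⟩ (hoff y hy') (hoff z hz')
  exact moved1 h hv (point_fixed h (v := (x, a)) (w := (n, a)) (w' := (n', a))
    (by simpa using hnn') ⟨rfl, hxn⟩ ⟨rfl, hxn'⟩ (hfix n hn) (hfix n' hn'))

/-- `L` contains a point. -/
lemma exists_point (h : G₀.IsFold φ L) : ∃ v : G₀.V1, Sum.inl v ∈ L := by
  by_contra hno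
  push Not at hno
  have hfix1 : ∀ v, φ.1 v = v := by
    intro v
    by_contra hv
    rcases cover1 h hv with h1 | h1
    · exact hno _ h1
    · exact hno _ h1
  have hfix2 : ∀ w, φ.2 w = w := by
    rintro ⟨n, a⟩
    obtain ⟨y, z, hyz, hy, hz⟩ := D_two n
    exact linefix_of_points h (v := (y, a)) (v' := (z, a)) (by simpa using hyz)
      ⟨rfl, hy⟩ ⟨rfl, hz⟩ (hfix1 _) (hfix1 _)
  apply h.1.2.2.1
  refine Prod.ext ?_ ?_
  · ext v : 1
    simpa using hfix1 v
  · ext w : 1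
    simpa using hfix2 w

/-- two points in the same copy are mapped to the same copy -/
lemma copy_eq (h : G₀.IsFold φ L) (x y : ZMod 7) (a : Bool) :
    (φ.1 (x, a)).2 = (φ.1 (y, a)).2 := by
  obtain ⟨l, hl1, hl2⟩ := D_join x y
  have e1 := ((aut h (x, a) (l, a)).2 ⟨rfl, hl1⟩).1
  have e2 := ((aut h (y, a) (l, a)).2 ⟨rfl, hl2⟩).1
  rw [e1, e2]

/-- In a fold, the two copies are swapped (on points). -/
lemma swap1 (h : G₀.IsFold φ L) (v : G₀.V1) : (φ.1 v).2 = !v.2 := by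
  obtain ⟨⟨x, a⟩, hx⟩ := exists_point h
  have h1 := other_copy h hx
  have h2 : ∀ y, (φ.1 (y, a)).2 = !a := by
    intro y
    rw [copy_eq h y x a]
    revert h1
    simp only
    cases (φ.1 (x, a)).2 <;> cases a <;> simp
  obtain ⟨y, b⟩ := v
  by_cases hb : b = a
  · subst hb
    exact h2 y
  · have hb' : b = !a := by
      revert hb; cases a <;> cases b <;> simp
    -- φ (x, a) lies in the copy b
    have h3 : (φ.1 (x, a)).2 = b := by rw [h2 x, hb']
    have h4 := inv1 h (x, a)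
    have h5 : φ.1 (x, a) = ((φ.1 (x, a)).1, b) := Prod.ext rfl h3
    rw [h5] at h4
    have h6 := copy_eq h y (φ.1 (x, a)).1 b
    rw [h4] at h6
    simp only at h6 ⊢
    rw [h6, hb']
    simp

lemma swap2 (h : G₀.IsFold φ L) (w : G₀.V2) : (φ.2 w).2 = !w.2 := by
  obtain ⟨l, a⟩ := w
  obtain ⟨p, hp⟩ := D_point l
  have e1 := ((aut h (p, a) (l, a)).2 ⟨rfl, hp⟩).1
  rw [← e1, swap1 h]

/-- `L` contains all or none of each copy. -/
lemma allpoints (h : G₀.IsFold φ L) {x y : ZMod 7} {a : Bool}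
    (hx : (Sum.inl (x, a) : G₀.V) ∈ L) : (Sum.inl (y, a) : G₀.V) ∈ L := by
  obtain ⟨l, hl1, hl2⟩ := D_join x y
  have hl : (Sum.inr (l, a) : G₀.V) ∈ L := by
    refine closed_lr h hx ?_ ⟨rfl, hl1⟩
    intro he
    have := swap2 h (l, a)
    rw [he] at this
    simp at this
  refine closed_rl h hl ?_ ⟨rfl, hl2⟩
  intro he
  have := swap1 h (y, a)
  rw [he] at this
  simp at this

lemma line_iff (h : G₀.IsFold φ L) {x l : ZMod 7} {a : Bool} (hxl : D x l) :
    (Sum.inl (x, a) : G₀.V) ∈ L ↔ (Sum.inr (l, a) : G₀.V) ∈ L := by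
  constructor
  · intro hx
    refine closed_lr h hx ?_ ⟨rfl, hxl⟩
    intro he
    have := swap2 h (l, a)
    rw [he] at this
    simp at this
  · intro hl
    refine closed_rl h hl ?_ ⟨rfl, hxl⟩
    intro he
    have := swap1 h (x, a)
    rw [he] at this
    simp at this

/-- A set of edges with at most one edge in each copy. -/
def Small (F : Set (G₀.V1 × G₀.V2)) : Prop :=
  ∀ e ∈ F, ∀ e' ∈ F, e.1.2 = e'.1.2 → e = e'

lemma small_foldPre (h : G₀.IsFold φ L) {F : Set (G₀.V1 × G₀.V2)} (hF : Small F) :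
    Small (G₀.foldPre φ L F) := by
  rintro ⟨⟨x, a⟩, ⟨l, b⟩⟩ ⟨⟨hab, hxl⟩, he⟩ ⟨⟨y, c⟩, ⟨m, d⟩⟩ ⟨⟨hcd, hym⟩, he'⟩ hac
  simp only at hab hxl hcd hym hac
  subst hac
  subst hab
  subst hcd
  by_cases hx : (Sum.inl (x, a) : G₀.V) ∈ L
  · have hl := (line_iff h hxl).1 hx
    have hy := allpoints h (y := y) hx
    have hm := (line_iff h hym).1 hy
    simp only [hx, hl, hy, hm, if_true] at he he'
    exact hF _ he _ he' rfl
  · have hl : (Sum.inr (l, a) : G₀.V) ∉ L := fun hl => hx ((line_iff h hxl).2 hl)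
    have hy : (Sum.inl (y, a) : G₀.V) ∉ L := fun hy => hx (allpoints h (y := x) hy)
    have hm : (Sum.inr (m, a) : G₀.V) ∉ L := fun hm => hy ((line_iff h hym).2 hm)
    simp only [hx, hl, hy, hm, if_false] at he he'
    have := hF _ he _ he' (by simp only; rw [swap1 h, swap1 h])
    have h1 := congrArg Prod.fst this
    have h2 := congrArg Prod.snd this
    simp only at h1 h2
    exact Prod.ext (φ.1.injective h1) (φ.2.injective h2)

end Fold

theorem not_cutPercolating : ¬ G₀.CutPercolating := by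
  rintro ⟨m, E, hE, h0, hm, hstep⟩
  have hsmall : ∀ i ≤ m, Small (E i) := by
    intro i
    induction i with
    | zero =>
      intro _
      obtain ⟨e, he⟩ := Set.ncard_eq_one.1 h0
      intro e1 h1 e2 h2 _
      rw [he] at h1 h2
      rw [h1, h2]
    | succ i ih =>
      intro hi
      obtain ⟨φ, L, hf, hE'⟩ := hstep i (by omega)
      rw [hE']
      exact small_foldPre hf (ih (by omega))
  have := hsmall m le_rfl
  rw [hm] at this
  have h1 : (((1 : ZMod 7), false), ((0 : ZMod 7), false)) ∈ G₀.edges := ⟨rfl, by decide⟩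
  have h2 : (((2 : ZMod 7), false), ((0 : ZMod 7), false)) ∈ G₀.edges := ⟨rfl, by decide⟩
  have h3 := this _ h1 _ h2 rfl
  have h4 := congrArg (fun e => e.1.1) h3
  simp only at h4
  exact absurd h4 (by decide)


/-! ### The fold group is edge-transitive -/

/-- `α` acts as a collineation (with the same action on the labels of points and lines). -/
def Good (α : Perm (ZMod 7)) : Prop := ∀ p l, D (α p) (α l) ↔ D p l

lemma Good.mul {α β : Perm (ZMod 7)} (h1 : Good α) (h2 : Good β) : Good (α * β) := by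
  intro p l
  simp only [Perm.coe_mul, Function.comp_apply]
  rw [h1, h2]

lemma Good.inv {α : Perm (ZMod 7)} (h : Good α) : Good α⁻¹ := by
  intro p l
  rw [← h (α⁻¹ p) (α⁻¹ l)]
  simp

/-- The multiplier `2`. -/
def mul2 : Perm (ZMod 7) := ⟨fun x => 2 * x, fun x => 4 * x, by decide, by decide⟩

lemma good_mul2 : Good mul2 := by
  intro p l
  show D (2 * p) (2 * l) ↔ D p l
  revert p l
  decide

lemma good_add (b : ZMod 7) : Good (Equiv.addRight b) := by
  intro p l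
  show D (p + b) (l + b) ↔ D p l
  unfold D
  rw [add_sub_add_right_eq_sub]

lemma base_flag {p l : ZMod 7} (h : D p l) : ∃ α, Good α ∧ α 1 = p ∧ α 0 = l := by
  rcases h with h | h | h
  · refine ⟨Equiv.addRight l, good_add l, ?_, ?_⟩
    · show 1 + l = p
      rw [← h]; ring
    · show 0 + l = l
      ring
  · refine ⟨Equiv.addRight l * mul2, (good_add l).mul good_mul2, ?_, ?_⟩
    · show 2 * 1 + l = p
      rw [mul_one, ← h]; ring
    · show 2 * 0 + l = l
      ring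
  · refine ⟨Equiv.addRight l * mul2 * mul2, ((good_add l).mul good_mul2).mul good_mul2,
      ?_, ?_⟩
    · show 2 * (2 * 1) + l = p
      have : (2 * (2 * 1) : ZMod 7) = 4 := by decide
      rw [this, ← h]; ring
    · show 2 * (2 * 0) + l = l
      ring

lemma flag_transitive {p l p' l' : ZMod 7} (h : D p l) (h' : D p' l') :
    ∃ α, Good α ∧ α p = p' ∧ α l = l' := by
  obtain ⟨α, hα, h1, h2⟩ := base_flag h
  obtain ⟨β, hβ, h3, h4⟩ := base_flag h'
  refine ⟨β * α⁻¹, hβ.mul hα.inv, ?_, ?_⟩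
  · rw [← h1, ← h3]; simp
  · rw [← h2, ← h4]; simp

/-- The swap of the two copies given by `α`. -/
def sw (α : Perm (ZMod 7)) : Perm (ZMod 7 × Bool) where
  toFun x := bif x.2 then (α⁻¹ x.1, false) else (α x.1, true)
  invFun x := bif x.2 then (α⁻¹ x.1, false) else (α x.1, true)
  left_inv := by rintro ⟨x, a⟩; cases a <;> simp
  right_inv := by rintro ⟨x, a⟩; cases a <;> simp

@[simp] lemma sw_false (α : Perm (ZMod 7)) (x : ZMod 7) : sw α (x, false) = (α x, true) := rfl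
@[simp] lemma sw_true (α : Perm (ZMod 7)) (x : ZMod 7) :
    sw α (x, true) = (α⁻¹ x, false) := rfl

lemma sw_snd (α : Perm (ZMod 7)) (x : ZMod 7 × Bool) : (sw α x).2 = !x.2 := by
  obtain ⟨x, a⟩ := x; cases a <;> simp

lemma sw_sw (α : Perm (ZMod 7)) (x : ZMod 7 × Bool) : sw α (sw α x) = x := by
  obtain ⟨x, a⟩ := x; cases a <;> simp

/-- The copy of a vertex. -/
def cp : G₀.V → Bool := Sum.elim Prod.snd Prod.snd

lemma cp_adj {x y : G₀.V} (h : G₀.graph.Adj x y) : cp x = cp y := by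
  rcases h with ⟨v, w, rfl, rfl, h⟩ | ⟨v, w, rfl, rfl, h⟩
  · exact h.1
  · exact h.1.symm

lemma cp_reachable {s : Set G₀.V} {x y : s} (h : (G₀.graph.induce s).Reachable x y) :
    cp x = cp y := by
  obtain ⟨w⟩ := h
  induction w with
  | nil => rfl
  | cons h _ ih =>
    rw [← ih]
    exact cp_adj (by simpa using h)

lemma cp_act (α : Perm (ZMod 7)) (x : G₀.V) : cp (G₀.act (sw α, sw α) x) = !(cp x) := by
  rcases x with x | x
  · exact sw_snd α x
  · exact sw_snd α x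

lemma fix_empty (α : Perm (ZMod 7)) : G₀.Fix (sw α, sw α) = ∅ := by
  rw [Set.eq_empty_iff_forall_notMem]
  intro x hx
  have h1 : G₀.act (sw α, sw α) x = x := hx
  have h2 := cp_act α x
  rw [h1] at h2
  revert h2
  cases cp x <;> simp

lemma sw_fold {α : Perm (ZMod 7)} (hα : Good α) :
    G₀.IsFold (sw α, sw α) {x | cp x = false} := by
  have hmem : ∀ x : G₀.V, x ∈ (G₀.Fix (sw α, sw α))ᶜ := by
    intro x
    rw [fix_empty]
    simp
  refine ⟨⟨?_, ?_, ?_, ?_⟩, ?_, ?_, ?_, ?_, ?_⟩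
  · rintro ⟨v, a⟩ ⟨w, b⟩
    have h' := hα.inv
    cases a <;> cases b
    · simp [hα v w]
    · simp
    · simp
    · show (false = false ∧ D (α⁻¹ v) (α⁻¹ w)) ↔ (true = true ∧ D v w)
      rw [h' v w]
      simp
  · refine Prod.ext ?_ ?_
    · ext x : 1
      exact sw_sw α x
    · ext x : 1
      exact sw_sw α x
  · intro he
    have h1 := congrArg (fun f => f.1 ((0 : ZMod 7), false)) he
    simp at h1
  · intro hc
    have h1 := hc.preconnected ⟨Sum.inl (0, false), hmem _⟩ ⟨Sum.inl (0, true), hmem _⟩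
    have h2 := cp_reachable h1
    simp [cp] at h2
  · refine ⟨{c | ∃ x : ((G₀.Fix (sw α, sw α))ᶜ : Set G₀.V), cp x = false ∧
      (G₀.graph.induce (G₀.Fix (sw α, sw α))ᶜ).connectedComponentMk x = c}, ?_⟩
    ext x
    constructor
    · intro hx
      exact ⟨hmem x, ⟨x, hmem x⟩, hx, rfl⟩
    · rintro ⟨hx, y, hy, hyx⟩
      have := cp_reachable (SimpleGraph.ConnectedComponent.exact hyx)
      rw [← hy, this]
      rfl
  · rw [fix_empty]; simp
  · rw [fix_empty]; simp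
  · rw [Set.disjoint_left]
    rintro x hx ⟨y, hy, rfl⟩
    have h1 : cp (G₀.act (sw α, sw α) y) = false := hx
    have h2 : cp y = false := hy
    rw [cp_act, h2] at h1
    simp at h1
  · rw [Set.eq_univ_iff_forall]
    intro x
    by_cases hx : cp x = false
    · exact Or.inl (Or.inl hx)
    · right
      refine ⟨G₀.act (sw α, sw α) x, ?_, ?_⟩
      · show cp _ = false
        rw [cp_act]
        simpa using hx
      · rcases x with x | x
        · show Sum.inl (sw α (sw α x)) = _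
          rw [sw_sw]
        · show Sum.inr (sw α (sw α x)) = _
          rw [sw_sw]

lemma sw_mem {α : Perm (ZMod 7)} (hα : Good α) : (sw α, sw α) ∈ G₀.foldGroup :=
  Subgroup.subset_closure ⟨_, sw_fold hα⟩

lemma good_one : Good 1 := by
  intro p l; rfl

theorem edgeTransitive : G₀.EdgeTransitive G₀.foldGroup := by
  refine ⟨⟨((1, false), (0, false)), rfl, by decide⟩, ?_⟩
  rintro ⟨⟨p, a⟩, ⟨l, b⟩⟩ ⟨hab, hpl⟩ ⟨⟨p', c⟩, ⟨l', d⟩⟩ ⟨hcd, hpl'⟩
  simp only at hab hpl hcd hpl'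
  subst hab
  subst hcd
  obtain ⟨α, hα, h1, h2⟩ := flag_transitive hpl hpl'
  obtain ⟨β, hβ, h3, h4⟩ := flag_transitive hpl' hpl
  have h3' : β⁻¹ p = p' := by rw [← h3]; simp
  have h4' : β⁻¹ l = l' := by rw [← h4]; simp
  cases a <;> cases c
  · refine ⟨(sw 1, sw 1) * (sw α, sw α),
      Subgroup.mul_mem _ (sw_mem good_one) (sw_mem hα), ?_⟩
    simp [h1, h2]
  · refine ⟨(sw α, sw α), sw_mem hα, ?_⟩
    simp [h1, h2]
  · refine ⟨(sw β, sw β), sw_mem hβ, ?_⟩
    simp [h3', h4']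
  · refine ⟨(sw 1, sw 1) * (sw β, sw β),
      Subgroup.mul_mem _ (sw_mem good_one) (sw_mem hβ), ?_⟩
    simp [h3', h4']

/-- There is a bigraph that is edge-transitive under `Γ_fold(G)` but is not
cut-percolating. -/
theorem result : ∃ G : Bigraph, G.EdgeTransitive G.foldGroup ∧ ¬ G.CutPercolating :=
  ⟨G₀, edgeTransitive, not_cutPercolating⟩

end Pool.Agent.Results.MP_98b297_co.DisjointFanoPlanes
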